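import Pool.Agent.PLG.Stmts

set_option autoImplicit false

namespace Pool.Agent.PLG.H13

theorem grf_eq {t₁ t₂ k : ℝ} (hk : k ≠ t₂) {y z : ℂ} (hz : z.im = t₂ * z.re)
    (h : (k - t₂) * z.re = (k - t₁) * y.re) :
    z = (((k - t₁) / (k - t₂) : ℝ) : ℂ) * sh t₂ y := by
  have h0 : k - t₂ ≠ 0 := sub_ne_zero.2 hk
  have h1 : z.re = (k - t₁) / (k - t₂) * y.re := by
    field_simp
    linarith
  apply Complex.ext
  · rw [Complex.mul_re, Complex.ofReal_re, Complex.ofReal_im, zero_mul, sub_zero]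
    exact h1
  · rw [Complex.mul_im, Complex.ofReal_re, Complex.ofReal_im, zero_mul, add_zero]
    show z.im = (k - t₁) / (k - t₂) * (t₂ * y.re)
    rw [hz, h1]
    ring

theorem grf : GrfStmt := by
  intro M W t₁ t₂ k hT h1 h2 hk h12 hk1 hk2
  refine ⟨?_, ?_, ?_⟩
  · intro y hy
    obtain ⟨m, hm, z, hz, hmz⟩ := Submodule.mem_sup.1 (hT k hk t₂ h2 hk2 (Submodule.mem_inf.1 hy).1)
    have hyi := mem_sl.1 (Submodule.mem_inf.1 hy).2
    have hmi := mem_sl.1 (Submodule.mem_inf.1 hm).2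
    have hzi := mem_sl.1 (Submodule.mem_inf.1 hz).2
    have e1 : y.re = m.re + z.re := by rw [← hmz, Complex.add_re]
    have e2 : y.im = m.im + z.im := by rw [← hmz, Complex.add_im]
    have e3 : z = (((k - t₁) / (k - t₂) : ℝ) : ℂ) * sh t₂ y := by
      refine grf_eq hk2 hzi ?_
      rw [hyi, hmi, hzi, e1] at e2
      rw [e1]
      linarith
    refine ⟨?_, ?_⟩
    · rw [← e3]
      exact (Submodule.mem_inf.1 hz).1
    · rw [← e3, ← hmz, add_sub_cancel_right]
      exact (Submodule.mem_inf.1 hm).2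
  · intro z hz
    obtain ⟨m, hm, y, hy, hmy⟩ := Submodule.mem_sup.1 (hT k hk t₁ h1 hk1 (Submodule.mem_inf.1 hz).1)
    have hyi := mem_sl.1 (Submodule.mem_inf.1 hy).2
    have hmi := mem_sl.1 (Submodule.mem_inf.1 hm).2
    have hzi := mem_sl.1 (Submodule.mem_inf.1 hz).2
    have e1 : z.re = m.re + y.re := by rw [← hmy, Complex.add_re]
    have e2 : z.im = m.im + y.im := by rw [← hmy, Complex.add_im]
    refine ⟨y, hy, grf_eq hk2 hzi ?_⟩
    rw [hyi, hmi, hzi] at e2
    have e4 : m.re = z.re - y.re := by linarith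
    rw [e4] at e2
    linarith
  · intro m hm
    obtain ⟨y, hy, z, hz, hyz⟩ := Submodule.mem_sup.1 (hT t₁ h1 t₂ h2 h12 (Submodule.mem_inf.1 hm).1)
    have hyi := mem_sl.1 (Submodule.mem_inf.1 hy).2
    have hmi := mem_sl.1 (Submodule.mem_inf.1 hm).2
    have hzi := mem_sl.1 (Submodule.mem_inf.1 hz).2
    have e1 : m.re = y.re + z.re := by rw [← hyz, Complex.add_re]
    have e2 : m.im = y.im + z.im := by rw [← hyz, Complex.add_im]
    refine ⟨y, hy, ?_⟩
    have e3 : -z = (((k - t₁) / (k - t₂) : ℝ) : ℂ) * sh t₂ y := by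
      refine grf_eq hk2 ?_ ?_
      · rw [Complex.neg_im, Complex.neg_re, hzi]
        ring
      · rw [hyi, hmi, hzi, e1] at e2
        rw [Complex.neg_re]
        linarith
    rw [← e3, sub_neg_eq_add]
    exact hyz.symm

end Pool.Agent.PLG.H13
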