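import Pool.Agent.PLG.Stmts

set_option autoImplicit false

namespace Pool.Agent.PLG.H13

open Module

/-- the counting for slopes with the same sign -/
theorem prc_sign (hsol : SolStmt) {E : Type} [NormedAddCommGroup E] (f : ℂ →+ E)
    (G : AddSubgroup ℂ) (W : Finset ℝ) (π : ℂ →+ ℂ) (a b j σ : ℝ) (hG : Dsc f G) (n : ℕ)
    (hn : W.card = n + 1) (hj : 0 ≤ j) (hab : ∀ t ∈ W, a ≤ t ∧ t ≤ b) (hσ : σ ≠ 0)
    (Y U : ℝ → Finset ℂ)
    (hY : ∀ t ∈ W, ∀ y ∈ Y t, y ∈ lp G t ∧ ‖f y‖ ≤ 1 ∧ 0 < y.re ∧ (π y).im = t * (π y).re ∧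
      0 < σ * (π y).re)
    (hinj : ∀ t ∈ W, Set.InjOn π (Y t))
    (hU : ∀ t ∈ W, ∀ u ∈ U t, u ∈ lp G t ∧ ‖f u‖ ≤ 2 ∧ 0 < u.re ∧ π u = 0)
    (hc : ∀ t ∈ W, j ≤ 18 * (((Y t).card : ℝ) * (U t).card)) :
    ((n : ℝ) * (j / 18)) ^ 2 ≤ ((cone f G 6 a b).card : ℝ) := by
  classical
  let t : ℕ → ℝ := fun i => if h : i < n + 1 then W.orderEmbOfFin hn ⟨i, h⟩ else 0
  have ht : ∀ i (h : i < n + 1), t i = W.orderEmbOfFin hn ⟨i, h⟩ := fun i h => dif_pos h
  have htW : ∀ i, i < n + 1 → t i ∈ W := by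
    intro i hi
    rw [ht i hi]
    exact Finset.orderEmbOfFin_mem W hn _
  have htlt : ∀ i < n, t i < t (i + 1) := by
    intro i hi
    rw [ht i (by omega), ht (i + 1) (by omega)]
    apply (W.orderEmbOfFin hn).strictMono
    exact Fin.mk_lt_mk.2 (Nat.lt_succ_self i)
  -- the index sets
  let A : Finset (Σ _ : ℕ, ℂ × ℂ) := (Finset.range n).sigma fun q => Y (t q) ×ˢ Y (t (q + 1))
  let B : Finset (Σ _ : ℕ, ℂ × ℂ) := (Finset.range n).sigma fun q => U (t q) ×ˢ U (t (q + 1))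
  have hA : ∀ x ∈ A, x.1 < n ∧ x.2.1 ∈ Y (t x.1) ∧ x.2.2 ∈ Y (t (x.1 + 1)) := by
    intro x hx
    rw [Finset.mem_sigma, Finset.mem_range, Finset.mem_product] at hx
    exact hx
  have hB : ∀ x ∈ B, x.1 < n ∧ x.2.1 ∈ U (t x.1) ∧ x.2.2 ∈ U (t (x.1 + 1)) := by
    intro x hx
    rw [Finset.mem_sigma, Finset.mem_range, Finset.mem_product] at hx
    exact hx
  have hcard : A.card * B.card ≤ (cone f G 6 a b).card := by
    rw [← Finset.card_product]
    refine Finset.card_le_card_of_injOn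
      (fun x => x.2.2.1 + x.2.2.2 + (x.1.2.1 + x.1.2.2)) ?_ ?_
    · rintro ⟨⟨q, y, y'⟩, ⟨p, u, u'⟩⟩ hx
      rw [Finset.mem_coe, Finset.mem_product] at hx
      obtain ⟨hq, hy, hy'⟩ := hA _ hx.1
      obtain ⟨hp, hu, hu'⟩ := hB _ hx.2
      dsimp only at hq hy hy' hp hu hu' ⊢
      have wq := htW q (by omega)
      have wq' := htW (q + 1) (by omega)
      have wp := htW p (by omega)
      have wp' := htW (p + 1) (by omega)
      have y1 := hY _ wq _ hy
      have y2 := hY _ wq' _ hy'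
      have u1 := hU _ wp _ hu
      have u2 := hU _ wp' _ hu'
      have b1 := hab _ wq
      have b2 := hab _ wq'
      have b3 := hab _ wp
      have b4 := hab _ wp'
      have c1 := mem_lp.1 y1.1
      have c2 := mem_lp.1 y2.1
      have c3 := mem_lp.1 u1.1
      have c4 := mem_lp.1 u2.1
      have m1 := mul_le_mul_of_nonneg_right b1.1 y1.2.2.1.le
      have m2 := mul_le_mul_of_nonneg_right b2.1 y2.2.2.1.le
      have m3 := mul_le_mul_of_nonneg_right b3.1 u1.2.2.1.le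
      have m4 := mul_le_mul_of_nonneg_right b4.1 u2.2.2.1.le
      have l1 := mul_le_mul_of_nonneg_right b1.2 y1.2.2.1.le
      have l2 := mul_le_mul_of_nonneg_right b2.2 y2.2.2.1.le
      have l3 := mul_le_mul_of_nonneg_right b3.2 u1.2.2.1.le
      have l4 := mul_le_mul_of_nonneg_right b4.2 u2.2.2.1.le
      rw [Finset.mem_coe, mem_cone hG]
      refine ⟨G.add_mem (G.add_mem c3.1 c4.1) (G.add_mem c1.1 c2.1), ?_, ?_, ?_, ?_⟩
      · rw [map_add, map_add, map_add]
        have n1 := norm_add_le (f u + f u') (f y + f y')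
        have n2 := norm_add_le (f u) (f u')
        have n3 := norm_add_le (f y) (f y')
        linarith [y1.2.1, y2.2.1, u1.2.1, u2.2.1]
      · simp only [Complex.add_re]
        linarith [y1.2.2.1, y2.2.2.1, u1.2.2.1, u2.2.2.1]
      · simp only [Complex.add_re, Complex.add_im, c1.2, c2.2, c3.2, c4.2]
        linarith
      · simp only [Complex.add_re, Complex.add_im, c1.2, c2.2, c3.2, c4.2]
        linarith
    · rintro ⟨⟨q, y, y'⟩, ⟨p, u, u'⟩⟩ hx ⟨⟨q2, w, w'⟩, ⟨p2, v, v'⟩⟩ hx2 he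
      rw [Finset.mem_coe, Finset.mem_product] at hx hx2
      obtain ⟨hq, hy, hy'⟩ := hA _ hx.1
      obtain ⟨hp, hu, hu'⟩ := hB _ hx.2
      obtain ⟨hq2, hw, hw'⟩ := hA _ hx2.1
      obtain ⟨hp2, hv, hv'⟩ := hB _ hx2.2
      dsimp only at hq hy hy' hp hu hu' hq2 hw hw' hp2 hv hv' he
      have he2 : π y + π y' = π w + π w' := by
        have h1 := congrArg π he
        simp only [map_add] at h1
        rw [(hU _ (htW p (by omega)) _ hu).2.2.2, (hU _ (htW (p + 1) (by omega)) _ hu').2.2.2,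
          (hU _ (htW p2 (by omega)) _ hv).2.2.2, (hU _ (htW (p2 + 1) (by omega)) _ hv').2.2.2]
          at h1
        simpa using h1
      have hs := hsol n t (fun i => (Y (t i)).image fun y => (σ : ℂ) * π y) htlt
        (fun i hi x hx => by
          obtain ⟨z, hz, rfl⟩ := Finset.mem_image.1 hx
          have h1 := hY _ (htW i (by omega)) _ hz
          refine ⟨?_, ?_⟩
          · rw [Complex.mul_im, Complex.mul_re, Complex.ofReal_re, Complex.ofReal_im, zero_mul,
              zero_mul, add_zero, sub_zero, h1.2.2.2.1]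
            ring
          · rw [Complex.mul_re, Complex.ofReal_re, Complex.ofReal_im, zero_mul, sub_zero]
            exact h1.2.2.2.2)
        q q2 hq hq2 ((σ : ℂ) * π y) (Finset.mem_image_of_mem _ hy) ((σ : ℂ) * π y')
        (Finset.mem_image_of_mem _ hy') ((σ : ℂ) * π w) (Finset.mem_image_of_mem _ hw)
        ((σ : ℂ) * π w') (Finset.mem_image_of_mem _ hw')
        (by rw [← mul_add, ← mul_add, he2])
      obtain ⟨hqq, hyw, hyw'⟩ := hs
      subst hqq
      have hσc : (σ : ℂ) ≠ 0 := by exact_mod_cast hσ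
      have hyw2 := hinj _ (htW q (by omega)) (Finset.mem_coe.2 hy) (Finset.mem_coe.2 hw)
        (mul_left_cancel₀ hσc hyw)
      have hyw3 := hinj _ (htW (q + 1) (by omega)) (Finset.mem_coe.2 hy') (Finset.mem_coe.2 hw')
        (mul_left_cancel₀ hσc hyw')
      subst hyw2
      subst hyw3
      have hs2 := hsol n t (fun i => U (t i)) htlt
        (fun i hi x hx => by
          have h1 := hU _ (htW i (by omega)) _ hx
          exact ⟨(mem_lp.1 h1.1).2, h1.2.2.1⟩)
        p p2 hp hp2 u hu u' hu' v hv v' hv' (add_right_cancel he)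
      obtain ⟨hpp, huv, huv'⟩ := hs2
      subst hpp
      subst huv
      subst huv'
      rfl
  have hcA : (A.card : ℝ) = ∑ q ∈ Finset.range n, ((Y (t q)).card : ℝ) * (Y (t (q + 1))).card := by
    rw [Finset.card_sigma]
    push_cast
    refine Finset.sum_congr rfl fun q _ => ?_
    rw [Finset.card_product]
    push_cast
    rfl
  have hcB : (B.card : ℝ) = ∑ q ∈ Finset.range n, ((U (t q)).card : ℝ) * (U (t (q + 1))).card := by
    rw [Finset.card_sigma]
    push_cast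
    refine Finset.sum_congr rfl fun q _ => ?_
    rw [Finset.card_product]
    push_cast
    rfl
  have hcs := Real.sum_sqrt_mul_sqrt_le (Finset.range n)
    (f := fun q => ((Y (t q)).card : ℝ) * (Y (t (q + 1))).card)
    (g := fun q => ((U (t q)).card : ℝ) * (U (t (q + 1))).card)
    (fun q => by positivity) (fun q => by positivity)
  rw [← hcA, ← hcB] at hcs
  have hj18 : 0 ≤ j / 18 := by positivity
  have hlow : (n : ℝ) * (j / 18) ≤ ∑ q ∈ Finset.range n,
      √(((Y (t q)).card : ℝ) * (Y (t (q + 1))).card) *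
        √(((U (t q)).card : ℝ) * (U (t (q + 1))).card) := by
    have h1 : ∑ _q ∈ Finset.range n, (j / 18) = (n : ℝ) * (j / 18) := by
      rw [Finset.sum_const, Finset.card_range, nsmul_eq_mul]
    rw [← h1]
    refine Finset.sum_le_sum fun q hq => ?_
    rw [Finset.mem_range] at hq
    rw [← Real.sqrt_mul (by positivity)]
    apply Real.le_sqrt_of_sq_le
    have k1 := hc _ (htW q (by omega))
    have k2 := hc _ (htW (q + 1) (by omega))
    have k3 : j / 18 ≤ ((Y (t q)).card : ℝ) * (U (t q)).card := by linarith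
    have k4 : j / 18 ≤ ((Y (t (q + 1))).card : ℝ) * (U (t (q + 1))).card := by linarith
    calc (j / 18) ^ 2 = (j / 18) * (j / 18) := by ring
      _ ≤ (((Y (t q)).card : ℝ) * (U (t q)).card) *
          (((Y (t (q + 1))).card : ℝ) * (U (t (q + 1))).card) :=
          mul_le_mul k3 k4 hj18 (hj18.trans k3)
      _ = _ := by ring
  have h3 : (n : ℝ) * (j / 18) ≤ √(A.card : ℝ) * √(B.card : ℝ) := hlow.trans hcs
  have h4 : ((n : ℝ) * (j / 18)) ^ 2 ≤ (√(A.card : ℝ) * √(B.card : ℝ)) ^ 2 :=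
    pow_le_pow_left₀ (by positivity) h3 2
  rw [mul_pow (√(A.card : ℝ)), Real.sq_sqrt (Nat.cast_nonneg _), Real.sq_sqrt (Nat.cast_nonneg _)] at h4
  refine h4.trans ?_
  exact_mod_cast hcard

theorem prc (hsol : SolStmt) : PrcStmt := by
  classical
  intro E _ _ f G W π a b j hG hW hj hab hF
  have hch : ∀ t : ℝ, ∃ (σ : ℝ) (Y U : Finset ℂ), t ∈ W → (σ = 1 ∨ σ = -1) ∧
      (∀ y ∈ Y, y ∈ lp G t ∧ ‖f y‖ ≤ 1 ∧ 0 < y.re ∧ (π y).im = t * (π y).re ∧
        0 < σ * (π y).re) ∧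
      Set.InjOn π Y ∧ (∀ u ∈ U, u ∈ lp G t ∧ ‖f u‖ ≤ 2 ∧ 0 < u.re ∧ π u = 0) ∧
      j ≤ 18 * ((Y.card : ℝ) * U.card) := by
    intro t
    by_cases ht : t ∈ W
    · obtain ⟨σ, hσ, Y, U, h⟩ := hF t ht
      exact ⟨σ, Y, U, fun _ => ⟨hσ, h⟩⟩
    · exact ⟨1, ∅, ∅, fun h => absurd h ht⟩
  choose σ Y U hY using hch
  -- a large set with constant sign
  have hex : ∃ (s : ℝ) (W' : Finset ℝ), s ≠ 0 ∧ W' ⊆ W ∧ (∀ t ∈ W', σ t = s) ∧
      W.card ≤ 2 * W'.card := by
    by_cases h : W.card ≤ 2 * (W.filter fun t => σ t = 1).card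
    · exact ⟨1, W.filter fun t => σ t = 1, one_ne_zero, Finset.filter_subset _ _,
        fun t ht => (Finset.mem_filter.1 ht).2, h⟩
    · refine ⟨-1, W.filter fun t => ¬ σ t = 1, by norm_num, Finset.filter_subset _ _,
        fun t ht => ?_, ?_⟩
      · have h1 := Finset.mem_filter.1 ht
        exact (hY t h1.1).1.resolve_left h1.2
      · have h1 := Finset.card_filter_add_card_filter_not (s := W) (fun t => σ t = 1)
        omega
  obtain ⟨s, W', hs, hWW, hσ, hcard⟩ := hex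
  obtain ⟨n, hn⟩ : ∃ n, W'.card = n + 1 := ⟨W'.card - 1, by omega⟩
  have key := prc_sign hsol f G W' π a b j s hG n hn hj (fun t ht => hab t (hWW ht)) hs Y U
    (fun t ht y hy => by
      have h1 := (hY t (hWW ht)).2.1 y hy
      rw [hσ t ht] at h1
      exact h1)
    (fun t ht => (hY t (hWW ht)).2.2.1)
    (fun t ht => (hY t (hWW ht)).2.2.2.1)
    (fun t ht => (hY t (hWW ht)).2.2.2.2)
  have hn4 : W.card ≤ 4 * n := by omega
  have hn4' : (W.card : ℝ) ≤ 4 * (n : ℝ) := by exact_mod_cast hn4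
  have h1 : (W.card : ℝ) * j ≤ 72 * ((n : ℝ) * (j / 18)) := by
    have h2 := mul_le_mul_of_nonneg_right hn4' hj
    linarith
  have h3 : ((W.card : ℝ) * j) ^ 2 ≤ (72 * ((n : ℝ) * (j / 18))) ^ 2 :=
    pow_le_pow_left₀ (by positivity) h1 2
  calc ((W.card : ℝ) * j) ^ 2 ≤ (72 * ((n : ℝ) * (j / 18))) ^ 2 := h3
    _ = 5184 * ((n : ℝ) * (j / 18)) ^ 2 := by ring
    _ ≤ 5184 * ((cone f G 6 a b).card : ℝ) := by linarith

end Pool.Agent.PLG.H13
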